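import Pool.Agent.Lib.MP_ee20a5_al.Gap

namespace Pool.Agent.Results.MP_ee20a5_al.ExponentialGap

open Pool.Agent.Lib.MP_ee20a5_al

/-- For every `c < 2` and every large `n` there is a rigid rational `n`-tuple, sorted by absolute
value, with an index `i` such that `1 ≤ |x i|` and `|x (i+1)| > c ^ n * |x i|`. -/
theorem result (c : ℚ) (h0 : 1 ≤ c) (hc : c < 2) :
    ∃ N : ℕ, ∀ n : ℕ, N ≤ n → ∃ x : Fin n → ℚ,
      (∀ y : Fin n → ℚ, (∀ i, x i = 1 → y i = 1) →
        (∀ i j k, x i + x j = x k → y i + y j = y k) → y = x) ∧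
      (∀ i j, i ≤ j → |x i| ≤ |x j|) ∧
      ∃ i j : Fin n, j.val = i.val + 1 ∧ 1 ≤ |x i| ∧ c ^ n * |x i| < |x j| := by
  obtain ⟨k, N, hk, h⟩ := exists_km h0 hc
  refine ⟨N, fun n hn => ?_⟩
  obtain ⟨m, hm, h1, h2⟩ := h n hn
  exact build (val k m) (fun s => h2.trans_le (le_val hk s))
    (fun s => ((one_le_pow₀ h0).trans_lt h2).trans_le (le_val hk s)) (val_rigid hk hm)
    (by simpa using h1)

end Pool.Agent.Results.MP_ee20a5_al.ExponentialGap
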