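import Pool.Agent.FS.TopFour.Main5
import Pool.Agent.FS.TopFour.Six

namespace Pool.Agent.Results.MP_ee20a5_al.TopGaps

open Pool.Agent.FS.TopFour

/-- For `2 ≤ c < 6` and consecutive indices `i`, `j` of `Fin n`, the ratio bound with factor `c`
holds at `i` for all rigid sorted rational `n`-tuples exactly when at most `min ⌊c⌋ 4 + 1`
indices lie above `i`. -/
theorem result (c : ℚ) (h2 : 2 ≤ c) (h6 : c < 6) (n : ℕ) (i j : Fin n) (hij : j.val = i.val + 1) :
    (∀ x : Fin n → ℚ,
      (∀ y : Fin n → ℚ, (∀ a, x a = 1 → y a = 1) →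
        (∀ a b e, x a + x b = x e → y a + y b = y e) → y = x) →
      (∀ a b, a ≤ b → |x a| ≤ |x b|) → 1 ≤ |x i| → |x j| ≤ c * |x i|) ↔
    n ≤ i.val + min ⌊c⌋₊ 4 + 2 := by
  obtain ⟨i, hi⟩ := i
  obtain ⟨j, hj⟩ := j
  simp only at hij
  subst hij
  have f2 : 2 ≤ ⌊c⌋₊ := Nat.le_floor (by exact_mod_cast h2)
  constructor
  · intro h
    by_contra hn
    simp only at hn
    rcases le_or_gt ⌊c⌋₊ 4 with h4 | h4
    · have hn' : i + (⌊c⌋₊ + 1) + 1 < n := by omega
      have h1 := neg (k := ⌊c⌋₊ + 1) (by omega) hn' h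
      have h3 := Nat.lt_floor_add_one c
      push_cast at h1
      linarith
    · have h1 := neg6 (by omega : i + 6 < n) h
      linarith
  · intro hn x hr hs h1
    simp only at hn
    by_contra hc
    have hc' := not_le.mp hc
    rcases (by omega : n ≤ i + 5 ∨ n = i + 6) with h5 | h5
    · refine pos hj h5 x hr hs h1 (by nlinarith) ?_
      rcases lt_or_ge c 3 with h3 | h3
      · have : ⌊c⌋₊ < 3 := (Nat.floor_lt (by linarith)).mpr (by exact_mod_cast h3)
        exact Or.inr (by omega)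
      · exact Or.inl (by nlinarith)
    · have h4 : (4 : ℚ) ≤ c := by
        have a : 4 ≤ ⌊c⌋₊ := by omega
        have b := (Nat.le_floor_iff (by linarith : (0 : ℚ) ≤ c)).mp a
        exact_mod_cast b
      exact pos5 h5 x hr hs h1 (by nlinarith)

end Pool.Agent.Results.MP_ee20a5_al.TopGaps
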